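import Pool.Agent.H857.WT.Core
import Pool.Agent.H857.EF.P.S23

/-!
# Abelian varieties of Weil type over finite fields: assembly
-/

set_option autoImplicit false

namespace Pool.Agent.H857.WT

open Module Polynomial Pool.Agent.W521.Descent Pool.Agent.W521.Density Pool.Agent.W521.Count
  Pool.Agent.X297.UB Pool.Agent.H857.PB Pool.Agent.H857.PA Pool.Agent.H857.HK Pool.Agent.H857.EF

/-- The upper bound. -/
theorem upper (h17 : W17) (h18 : W18) (m : ℕ) (hm : 2 ≤ m) : ∃ C : ℝ, 0 < C ∧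
    ∀ (p : ℕ) [Fact p.Prime] (a : ℕ), 0 < a →
      ({f ∈ newtonWeil p a (2 * m) | OfWeilType (p ^ a) m f}.ncard : ℝ) ≤
        C * Real.sqrt ((p : ℝ) ^ a) ^ order m := by
  classical
  obtain ⟨C, hC, h⟩ := h18 m hm
  refine ⟨C, hC, fun p _ a ha => ?_⟩
  have hp : p.Prime := Fact.out
  have hq : 0 < p ^ a := pow_pos hp.pos a
  obtain ⟨hfin, hcard⟩ := h (p ^ a) hq
  have hcast : Real.sqrt ((p ^ a : ℕ) : ℝ) = Real.sqrt ((p : ℝ) ^ a) := by push_cast; rfl
  rw [hcast] at hcard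
  refine le_trans ?_ hcard
  set G : ℂ × (Fin m → ℂ) → ℤ[X] := fun t =>
    if h : ∃ f : ℤ[X], f.map (Int.castRingHom ℂ) =
      wpol m (p ^ a) t.1 t.2 * (wpol m (p ^ a) t.1 t.2).map (starRingEnd ℂ) then h.choose else 0
    with hG
  have hsub : {f ∈ newtonWeil p a (2 * m) | OfWeilType (p ^ a) m f} ⊆
      G '' {t : ℂ × (Fin m → ℂ) | Cond m (p ^ a) t.1 t.2} := by
    rintro f ⟨hf1, hf2⟩
    obtain ⟨ζ, b, hc, he⟩ := h17 m (p ^ a) f (by omega) hq hf1.1 hf2
    refine ⟨(ζ, b), hc, ?_⟩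
    have hex : ∃ f : ℤ[X], f.map (Int.castRingHom ℂ) =
      wpol m (p ^ a) ζ b * (wpol m (p ^ a) ζ b).map (starRingEnd ℂ) := ⟨f, he⟩
    have h1 : G (ζ, b) = hex.choose := by
      simp only [hG]
      rw [dif_pos hex]
    rw [h1]
    exact Polynomial.map_injective _ (Int.cast_injective (α := ℂ))
      (hex.choose_spec.trans he.symm)
  have h1 := (Set.ncard_le_ncard hsub (hfin.image _)).trans (Set.ncard_image_le hfin)
  exact_mod_cast h1

/-- The conclusion for the generic polynomials of Weil type. -/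
structure IsGood (q m : ℕ) (f : ℤ[X]) : Prop where
  ordinary : IsCoprime (f.coeff (2 * m)) (q : ℤ)
  irreducible : Irreducible f
  weil : OfWeilType q m f
  exotic : ExoticInCodim q m f
  generated : GeneratedInCodim m q f
  tate : TateFromCodim m q f

/-- The lower bound. -/
theorem lower (h3 : W3) (h8 : W8) (h9 : W9) (h10 : W10) (h11 : W11) (h12 : W12) (h13 : W13)
    (h14 : W14) (h16 : W16) (k : ℕ) (hk : 1 ≤ k) (hM : Many k) : ∃ C : ℝ, 0 < C ∧
    ∀ (p : ℕ) [Fact p.Prime] (a : ℕ), 0 < a → C < (p : ℝ) ^ a →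
      Real.sqrt ((p : ℝ) ^ a) ^ order (k + 1) ≤
        C * ({f ∈ newtonWeil p a (2 * (k + 1)) | IsGood (p ^ a) (k + 1) f}.ncard : ℝ) := by
  classical
  obtain ⟨C, hC0, h⟩ := hM
  refine ⟨C * 2 ^ (2 * (2 * k + 2)), by positivity, fun p _ a ha hCq => ?_⟩
  have hp : p.Prime := Fact.out
  have hq : 0 < p ^ a := pow_pos hp.pos a
  have hq1 : 1 < p ^ a := Nat.one_lt_pow ha.ne' hp.one_lt
  have hC1 : C ≤ C * 2 ^ (2 * (2 * k + 2)) :=
    le_mul_of_one_le_right hC0.le (one_le_pow₀ (by norm_num))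
  obtain ⟨S, hS1, hS2, hS3⟩ := h p a ha (hC1.trans_lt hCq)
  set E := {f ∈ newtonWeil p a (2 * (k + 1)) | IsGood (p ^ a) (k + 1) f} with hE
  have hEfin : E.Finite := newtonWeil_finite.subset fun f hf => hf.1
  have key : ∀ t ∈ S, ∃ (f : ℤ[X]) (z : Fin (2 * k + 2) → QB),
      IsNorm k (p ^ a) t.1 t.2.1 t.2.2.1 t.2.2.2 f z ∧ f ∈ E := by
    intro t ht
    obtain ⟨hd, hs, hb, hA, hB⟩ := hS2 t ht
    obtain ⟨f, z, hn, hw, hc⟩ := h3 k (p ^ a) t.1 t.2.1 t.2.2.1 t.2.2.2 hq hs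
    have hcop : IsCoprime (f.coeff (2 * k + 2)) ((p ^ a : ℕ) : ℤ) := by
      have h0 : IsCoprime (f.coeff (2 * k + 2)) (p : ℤ) := by
        have hpp : Prime (p : ℤ) := Nat.prime_iff_prime_int.1 hp
        rw [isCoprime_comm, hpp.coprime_iff_not_dvd]
        intro h1
        apply hb
        have h2 : (p : ℤ) ∣ f.coeff (2 * k + 2) - t.2.2.2 ^ 2 := by
          refine dvd_trans ?_ hc
          push_cast
          exact dvd_pow_self _ ha.ne'
        have h4 : (p : ℤ) ∣ t.2.2.2 ^ 2 := by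
          have h5 := dvd_sub h1 h2
          rwa [sub_sub_cancel] at h5
        exact hpp.dvd_of_dvd_pow h4
      push_cast
      exact h0.pow_right
    have hgen : Gen k (p ^ a) z := h8 k (p ^ a) _ _ _ _ f z hk hq1 hd hn hw hcop hA hB
    refine ⟨f, z, hn, ?_, ?_⟩
    · exact ordinary_mem ha ⟨hw, hcop⟩
    · have hrel := h12 k (p ^ a) _ _ _ _ f z hk hq1 hd hn hw hgen
      have hroot : ∀ i, aeval (z i : ℂ) f = 0 := by
        intro i
        have h1 : (hC k (p ^ a) t.1 t.2.1 t.2.2.1 t.2.2.2).eval (z i : ℂ) = 0 := by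
          rw [← hn.prod, eval_prod]
          exact Finset.prod_eq_zero (Finset.mem_univ i) (by simp)
        rw [aeval_def, eval₂_eq_eval_map]
        change eval (z i : ℂ) (f.map (Int.castRingHom ℂ)) = 0
        rw [hn.map, eval_mul, h1, zero_mul]
      exact ⟨hcop, h9 k (p ^ a) _ _ _ _ f z hk hq1 hd hn hw hgen,
        h10 k (p ^ a) _ _ _ _ f z hk hq1 hd hn hw hgen, h11 k (p ^ a) f z hk hq1 hroot hgen,
        h13 (k + 1) (p ^ a) f (by omega) hq1 hrel, h14 (k + 1) (p ^ a) f (by omega) hq1 hrel⟩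
  choose! F z hF using key
  have hcard : S.card ≤ 2 ^ (2 * (2 * k + 2)) * hEfin.toFinset.card := by
    refine Finset.card_le_mul_card_image_of_maps_to (f := F) (fun t ht => ?_) _ fun f hf => ?_
    · rw [Set.Finite.mem_toFinset]
      exact (hF t ht).2
    · rw [Set.Finite.mem_toFinset] at hf
      obtain ⟨hfin, hle⟩ := h16 k f (by
        have h1 := hf.1.1.2.1
        rw [h1]
        ring)
      refine le_trans ?_ hle
      rw [← Set.ncard_coe_finset]
      refine Set.ncard_le_ncard_of_injOn (fun t : ℕ × (Fin k → ℤ) × (Fin k → ℤ) × ℤ =>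
        hC k (p ^ a) t.1 t.2.1 t.2.2.1 t.2.2.2) ?_ ?_ hfin
      · intro t ht
        rw [Finset.mem_coe, Finset.mem_filter] at ht
        have hn := (hF t ht.1).1
        refine ⟨?_, ?_⟩
        · rw [← hn.prod]
          exact monic_prod_of_monic _ _ fun i _ => monic_X_sub_C _
        · rw [← ht.2, hn.map]
          exact dvd_mul_right _ _
      · intro t ht t' ht' htt
        rw [Finset.mem_coe, Finset.mem_filter] at ht ht'
        exact hS3 ht.1 ht'.1 htt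
  have hE2 : E.ncard = hEfin.toFinset.card := Set.ncard_eq_toFinset_card _ hEfin
  rw [← hE2] at hcard
  have hcard' : (S.card : ℝ) ≤ 2 ^ (2 * (2 * k + 2)) * (E.ncard : ℝ) := by exact_mod_cast hcard
  calc Real.sqrt ((p : ℝ) ^ a) ^ order (k + 1) ≤ C * (S.card : ℝ) := hS1
    _ ≤ C * (2 ^ (2 * (2 * k + 2)) * (E.ncard : ℝ)) := mul_le_mul_of_nonneg_left hcard' hC0.le
    _ = C * 2 ^ (2 * (2 * k + 2)) * (E.ncard : ℝ) := by ring

/-- The main theorem. -/
theorem main (h3 : W3) (h8 : W8) (h9 : W9) (h10 : W10) (h11 : W11) (h12 : W12) (h13 : W13)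
    (h14 : W14) (h15a : W15a) (h15b : W15b) (h16 : W16) (h17 : W17) (h18 : W18)
    (m : ℕ) (hm : 2 ≤ m) : ∃ C : ℝ, 0 < C ∧ ∀ (p : ℕ) [Fact p.Prime] (a : ℕ), 0 < a →
      ((newtonWeil p a (2 * m)).Finite ∧
        Real.sqrt ((p : ℝ) ^ a) ^ (m * (2 * m + 1)) ≤ C * ((newtonWeil p a (2 * m)).ncard : ℝ) ∧
        ((newtonWeil p a (2 * m)).ncard : ℝ) ≤ C * Real.sqrt ((p : ℝ) ^ a) ^ (m * (2 * m + 1))) ∧
      ({f ∈ newtonWeil p a (2 * m) | OfWeilType (p ^ a) m f}.ncard : ℝ) ≤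
        C * Real.sqrt ((p : ℝ) ^ a) ^ order m ∧
      (C < (p : ℝ) ^ a → Real.sqrt ((p : ℝ) ^ a) ^ order m ≤
        C * ({f ∈ newtonWeil p a (2 * m) | IsGood (p ^ a) m f}.ncard : ℝ)) := by
  obtain ⟨k, rfl⟩ : ∃ k, m = k + 1 := ⟨m - 1, by omega⟩
  have hM : Many k := by
    by_cases hk : 3 ≤ k
    · exact h15a k hk
    · exact h15b k (by omega)
  obtain ⟨C₁, hC₁, hu⟩ := upper h17 h18 (k + 1) hm
  obtain ⟨C₂, hC₂, hl⟩ := lower h3 h8 h9 h10 h11 h12 h13 h14 h16 k (by omega) hM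
  set g := 2 * (k + 1) with hg
  have htot : tot g = (k + 1) * (2 * (k + 1) + 1) := by
    rw [tot, hg]
    have : 2 * (k + 1) * (2 * (k + 1) + 1) = 2 * ((k + 1) * (2 * (k + 1) + 1)) := by ring
    rw [this]
    exact Nat.mul_div_cancel_left _ (by norm_num)
  set C₃ : ℝ := 4 * 2 ^ (g ^ 2) with hC₃
  set C₄ : ℝ := (3 * (4 : ℝ) ^ g) ^ g with hC₄
  have hC₃0 : 0 < C₃ := by positivity
  have hC₄0 : 0 < C₄ := by positivity
  refine ⟨C₁ + C₂ + C₃ + C₄, by positivity, fun p _ a ha => ⟨⟨newtonWeil_finite, ?_, ?_⟩,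
    ?_, fun hq => ?_⟩⟩
  · have h1 := newtonWeil_lower (p := p) ha g
    rw [htot] at h1
    refine h1.trans (mul_le_mul_of_nonneg_right ?_ (Nat.cast_nonneg _))
    linarith
  · have h1 := Pool.Agent.H740.EF.newtonWeil_upper (p := p) (a := a) g
    rw [htot] at h1
    refine h1.trans (mul_le_mul_of_nonneg_right ?_ (by positivity))
    linarith
  · refine (hu p a ha).trans (mul_le_mul_of_nonneg_right ?_ (by positivity))
    linarith
  · refine (hl p a ha (by linarith)).trans (mul_le_mul_of_nonneg_right ?_ (Nat.cast_nonneg _))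
    linarith

end Pool.Agent.H857.WT
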