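import Pool.Agent.H857.WT.Defs
import Pool.Agent.H857.EF.Core2

/-!
# Abelian varieties of Weil type over finite fields: auxiliary notions and the list of the statements
-/

set_option autoImplicit false

namespace Pool.Agent.H857.WT

open Module Polynomial Pool.Agent.W521.Descent Pool.Agent.W521.Density Pool.Agent.W521.Count
  Pool.Agent.X297.UB Pool.Agent.H857.PB Pool.Agent.H857.PA Pool.Agent.H857.HK Pool.Agent.H857.EF

/-- The self-reciprocal polynomial of degree `2 k + 2` with the coefficients `u j`, `v j`, `b`. -/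
noncomputable def hpoly {R : Type} [CommRing R] (k : ℕ) (q : R) (u v : Fin k → R) (b : R) : R[X] :=
  X ^ (2 * k + 2) + ∑ j : Fin k, (C (u j) * X ^ (2 * k + 1 - (j : ℕ)) +
    C (q ^ (k - (j : ℕ)) * v j) * X ^ ((j : ℕ) + 1)) + C b * X ^ (k + 1) + C (q ^ (k + 1))

/-- The numbers `x j + y j √-d`. -/
noncomputable def al {k : ℕ} (d : ℕ) (x y : Fin k → ℤ) (j : Fin k) : ℂ :=
  x j + y j * (Real.sqrt d * Complex.I)

/-- The factor over `ℚ(√-d)`. -/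
noncomputable def hC (k q d : ℕ) (x y : Fin k → ℤ) (b : ℤ) : ℂ[X] :=
  hpoly k (q : ℂ) (al d x y) (fun j => (starRingEnd ℂ) (al d x y j)) (b : ℂ)

/-- The coefficients are small. -/
def Small (k q d : ℕ) (x y : Fin k → ℤ) (b : ℤ) : Prop :=
  (∀ j, ((k : ℝ) + 1) * ‖al d x y j‖ ≤ Real.sqrt q ^ ((j : ℕ) + 1)) ∧
    ((k : ℝ) + 1) * |(b : ℝ)| ≤ Real.sqrt q ^ (k + 1)

/-- The polynomial `hpoly` is the product of a linear and an irreducible polynomial. -/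
def PatA {F : Type} [Field F] (k : ℕ) (q : F) (u v : Fin k → F) (b : F) : Prop :=
  ∃ (c : F) (r : F[X]), r.Monic ∧ Irreducible r ∧ r.natDegree = 2 * k + 1 ∧
    hpoly k q u v b = (X - C c) * r

/-- The polynomial `hpoly` has no roots. -/
def PatB {F : Type} [Field F] (k : ℕ) (q : F) (u v : Fin k → F) (b : F) : Prop :=
  ∀ t : F, (hpoly k q u v b).eval t ≠ 0

/-- There is a prime modulo which `hC` has the pattern `PatA`. -/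
def GoodA (k q d : ℕ) (x y : Fin k → ℤ) (b : ℤ) : Prop :=
  ∃ (l : ℕ) (_ : Fact l.Prime) (s : ZMod l), l ≠ 2 ∧ (q : ZMod l) ≠ 0 ∧ s ≠ 0 ∧
    s ^ 2 = -(d : ZMod l) ∧
    PatA k (q : ZMod l) (fun j => (x j : ZMod l) + s * y j) (fun j => (x j : ZMod l) - s * y j) b

/-- There is a prime modulo which `hC` has the pattern `PatB`. -/
def GoodB (k q d : ℕ) (x y : Fin k → ℤ) (b : ℤ) : Prop :=
  ∃ (l : ℕ) (_ : Fact l.Prime) (s : ZMod l), l ≠ 2 ∧ (q : ZMod l) ≠ 0 ∧ s ≠ 0 ∧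
    s ^ 2 = -(d : ZMod l) ∧
    PatB k (q : ZMod l) (fun j => (x j : ZMod l) + s * y j) (fun j => (x j : ZMod l) - s * y j) b

/-- `f` is the product of `hC` and its conjugate, and the `z i` are the roots of `hC`. -/
structure IsNorm (k q d : ℕ) (x y : Fin k → ℤ) (b : ℤ) (f : ℤ[X]) (z : Fin (2 * k + 2) → QB) :
    Prop where
  map : f.map (Int.castRingHom ℂ) = hC k q d x y b * (hC k q d x y b).map (starRingEnd ℂ)
  prod : ∏ i, (X - C (z i : ℂ)) = hC k q d x y b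
  norm : ∀ i, ‖(z i : ℂ)‖ ^ 2 = q
  inj : Function.Injective z

/-- The roots `z i` have no relations but the one with all exponents equal, and are conjugate. -/
structure Gen (k q : ℕ) (z : Fin (2 * k + 2) → QB) : Prop where
  norm : ∀ i, ‖(z i : ℂ)‖ ^ 2 = q
  inj : Function.Injective z
  prod : ∏ i, (z i : ℂ) = (q : ℂ) ^ (k + 1)
  rel : ∀ e : Fin (2 * k + 2) → ℤ, RelZ q (fun i => (z i : ℂ)) e → ∀ i j, e i = e j
  trans : ∀ i j, ∃ σ : QB ≃ₐ[ℚ] QB, σ (z i) = z j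

/-- The list can be arranged in pairs with the product `Q` and blocks of `2 m` elements with the
product `Q ^ m`. -/
inductive MatchedM (m : ℕ) (Q : ℂ) : List ℂ → Prop
  | nil : MatchedM m Q []
  | pair {a b : ℂ} {L L' : List ℂ} : a * b = Q → MatchedM m Q L → L'.Perm (a :: b :: L) →
      MatchedM m Q L'
  | block {B L L' : List ℂ} : B.length = 2 * m → B.prod = Q ^ m → MatchedM m Q L →
      L'.Perm (B ++ L) → MatchedM m Q L'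

/-- The roots of `g` have no relations with `Q` but those generated by relations between two and
`2 m` roots. -/
structure NoRelM (m : ℕ) (g : ℤ[X]) (Q : ℕ) : Prop where
  monic : g.Monic
  matched : ∀ s : ℕ, 0 < s → ∀ L : List ℂ, (∀ z ∈ L, aeval z g = 0) →
    ∀ (c : ℤ) (N : ℕ), 0 < N → ((L.map (· ^ s)).prod) ^ N = (((Q : ℂ) ^ s) ^ c) ^ N →
      MatchedM m (Q : ℂ) L

/-- A self-reciprocal polynomial, up to `ζ`, of degree `2 m`. -/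
noncomputable def wpol (m q : ℕ) (ζ : ℂ) (a : Fin m → ℂ) : ℂ[X] :=
  X ^ (2 * m) + ∑ j : Fin m, (if (j : ℕ) + 1 = m then C (a j) * X ^ m else
    C (a j) * X ^ (2 * m - 1 - (j : ℕ)) +
      C (ζ * (q : ℂ) ^ (m - 1 - (j : ℕ)) * (starRingEnd ℂ) (a j)) * X ^ ((j : ℕ) + 1)) +
    C (ζ * (q : ℂ) ^ m)

/-- The conditions for the coefficients of the factors of the polynomials of Weil type. -/
structure Cond (m q : ℕ) (ζ : ℂ) (a : Fin m → ℂ) : Prop where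
  re : ∀ j, ∃ n : ℤ, a j + (starRingEnd ℂ) (a j) = n
  im : ∀ i j, ∃ n : ℤ, (a i - (starRingEnd ℂ) (a i)) * (a j - (starRingEnd ℂ) (a j)) = n
  le : ∀ j, ‖a j‖ ≤ 4 ^ m * Real.sqrt q ^ ((j : ℕ) + 1)
  last : ∀ j : Fin m, (j : ℕ) + 1 = m → a j = ζ * (starRingEnd ℂ) (a j)
  norm : ‖ζ‖ = 1
  zre : ∃ n : ℤ, ζ + (starRingEnd ℂ) ζ = n

/-! ### The statements -/

/-- W1: the roots of `hpoly` with small coefficients lie on the circle. -/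
def W1 : Prop := ∀ (k q : ℕ) (a : Fin k → ℂ) (b : ℝ), 0 < q →
  (∀ j, ((k : ℝ) + 1) * ‖a j‖ ≤ Real.sqrt q ^ ((j : ℕ) + 1)) →
  ((k : ℝ) + 1) * |b| ≤ Real.sqrt q ^ (k + 1) →
  ∃ z : Fin (2 * k + 2) → ℂ, Function.Injective z ∧ (∀ i, ‖z i‖ ^ 2 = q) ∧
    ∏ i, (X - C (z i)) = hpoly k (q : ℂ) a (fun j => (starRingEnd ℂ) (a j)) (b : ℂ)

/-- W2: the norm of `hC` has integral coefficients. -/
def W2 : Prop := ∀ (k q d : ℕ) (x y : Fin k → ℤ) (b : ℤ), ∃ f : ℤ[X], f.Monic ∧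
  f.natDegree = 2 * (2 * k + 2) ∧ f.coeff 0 = (q : ℤ) ^ (2 * k + 2) ∧
  (q : ℤ) ∣ f.coeff (2 * k + 2) - b ^ 2 ∧
  f.map (Int.castRingHom ℂ) = hC k q d x y b * (hC k q d x y b).map (starRingEnd ℂ)

/-- W3: small parameters give Weil polynomials. -/
def W3 : Prop := ∀ (k q d : ℕ) (x y : Fin k → ℤ) (b : ℤ), 0 < q → Small k q d x y b →
  ∃ (f : ℤ[X]) (z : Fin (2 * k + 2) → QB), IsNorm k q d x y b f z ∧
    f ∈ weilPolys q (2 * k + 2) ∧ (q : ℤ) ∣ f.coeff (2 * k + 2) - b ^ 2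

/-- W4A: the pattern `PatA` exists. -/
def W4A : Prop := ∀ (l : ℕ) [Fact l.Prime], 3 ≤ l → ∀ k : ℕ, 1 ≤ k → ∀ q : ZMod l, q ≠ 0 →
  ∃ (u v : Fin k → ZMod l) (b : ZMod l), PatA k q u v b

/-- W4S: the pattern `PatA` exists in two special cases. -/
def W4S : Prop := ∀ k : ℕ, k = 1 ∨ k = 2 → ∀ (l : ℕ) [Fact l.Prime], l = 3 ∨ l = 5 →
  ∀ q : ZMod l, q ≠ 0 → ∃ (s : ZMod l) (x : Fin k → ZMod l) (b : ZMod l), s ≠ 0 ∧
    PatA k q (fun j => x j + s * (if (j : ℕ) + 1 = k then 1 else 0))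
      (fun j => x j - s * (if (j : ℕ) + 1 = k then 1 else 0)) b

/-- W4B: the pattern `PatB` exists. -/
def W4B : Prop := ∀ (l : ℕ) [Fact l.Prime] (k : ℕ) (q : ZMod l), q ≠ 0 →
  ∀ u v : Fin k → ZMod l, ∃ b : ZMod l, PatB k q u v b

/-- W5: Frobenius elements. -/
def W5 : Prop := ∀ (k q d : ℕ) (x y : Fin k → ℤ) (b : ℤ) (f : ℤ[X]) (z : Fin (2 * k + 2) → QB),
  0 < q → 0 < d → IsNorm k q d x y b f z → ∀ (l : ℕ) [Fact l.Prime] (s : ZMod l), l ≠ 2 →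
  (q : ZMod l) ≠ 0 → s ≠ 0 → s ^ 2 = -(d : ZMod l) →
  ∃ (π : Equiv.Perm (Fin (2 * k + 2))) (σ : QB ≃ₐ[ℚ] QB), (∀ i, σ (z i) = z (π i)) ∧
    (PatA k (q : ZMod l) (fun j => (x j : ZMod l) + s * y j)
        (fun j => (x j : ZMod l) - s * y j) b →
      ∃ i₀, π i₀ = i₀ ∧ ∀ i j, i ≠ i₀ → j ≠ i₀ → ∃ n : ℕ, (π ^ n) i = j) ∧
    (PatB k (q : ZMod l) (fun j => (x j : ZMod l) + s * y j)
        (fun j => (x j : ZMod l) - s * y j) b → ∀ i, π i ≠ i)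

/-- W6: invariant groups of relations. -/
def W6 : Prop := ∀ (n : ℕ) (R : AddSubgroup (Fin n → ℤ)) (α β : Equiv.Perm (Fin n)) (i₀ : Fin n),
  (∀ e ∈ R, (fun i => e (α i)) ∈ R) → (∀ e ∈ R, (fun i => e (β i)) ∈ R) → α i₀ = i₀ →
  (∀ i j, i ≠ i₀ → j ≠ i₀ → ∃ k : ℕ, (α ^ k) i = j) → β i₀ ≠ i₀ →
  ∀ e ∈ R, (∃ i j, e i ≠ e j) →
    ∃ N : ℤ, N ≠ 0 ∧ ∀ i j, (Pi.single i N - Pi.single j N : Fin n → ℤ) ∈ R

/-- W7: an ordinary Weil polynomial has a root which is not supersingular. -/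
def W7 : Prop := ∀ (q g : ℕ) (f : ℤ[X]), 1 < q → 0 < g → f ∈ weilPolys q g →
  IsCoprime (f.coeff g) (q : ℤ) → ∃ z : ℂ, aeval z f = 0 ∧ ∀ M : ℕ, 0 < M → z ^ (2 * M) ≠ (q : ℂ) ^ M

/-- W8: the relations in the generic case. -/
def W8 : Prop := ∀ (k q d : ℕ) (x y : Fin k → ℤ) (b : ℤ) (f : ℤ[X]) (z : Fin (2 * k + 2) → QB),
  1 ≤ k → 1 < q → 0 < d → IsNorm k q d x y b f z → f ∈ weilPolys q (2 * k + 2) →
  IsCoprime (f.coeff (2 * k + 2)) (q : ℤ) → GoodA k q d x y b → GoodB k q d x y b → Gen k q z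

/-- W9: irreducibility. -/
def W9 : Prop := ∀ (k q d : ℕ) (x y : Fin k → ℤ) (b : ℤ) (f : ℤ[X]) (z : Fin (2 * k + 2) → QB),
  1 ≤ k → 1 < q → 0 < d → IsNorm k q d x y b f z → f ∈ weilPolys q (2 * k + 2) → Gen k q z →
  Irreducible f

/-- W10: the polynomials are of Weil type. -/
def W10 : Prop := ∀ (k q d : ℕ) (x y : Fin k → ℤ) (b : ℤ) (f : ℤ[X]) (z : Fin (2 * k + 2) → QB),
  1 ≤ k → 1 < q → 0 < d → IsNorm k q d x y b f z → f ∈ weilPolys q (2 * k + 2) → Gen k q z →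
  OfWeilType q (k + 1) f

/-- W11: exotic classes. -/
def W11 : Prop := ∀ (k q : ℕ) (f : ℤ[X]) (z : Fin (2 * k + 2) → QB), 1 ≤ k → 1 < q →
  (∀ i, aeval (z i : ℂ) f = 0) → Gen k q z → ExoticInCodim q (k + 1) f

/-- W12: the relations between the roots in the generic case. -/
def W12 : Prop := ∀ (k q d : ℕ) (x y : Fin k → ℤ) (b : ℤ) (f : ℤ[X]) (z : Fin (2 * k + 2) → QB),
  1 ≤ k → 1 < q → 0 < d → IsNorm k q d x y b f z → f ∈ weilPolys q (2 * k + 2) → Gen k q z →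
  NoRelM (k + 1) f q

/-- W13. -/
def W13 : Prop := ∀ (m Q : ℕ) (g : ℤ[X]), 1 ≤ m → 1 < Q → NoRelM m g Q → GeneratedInCodim m Q g

/-- W14. -/
def W14 : Prop := ∀ (m Q : ℕ) (g : ℤ[X]), 1 ≤ m → 1 < Q → NoRelM m g Q → TateFromCodim m Q g

/-- The conclusion of W15: there are many good parameters. -/
def Many (k : ℕ) : Prop := ∃ C : ℝ, 0 < C ∧ ∀ (p : ℕ) [Fact p.Prime] (a : ℕ), 0 < a →
  C < (p : ℝ) ^ a → ∃ S : Finset (ℕ × (Fin k → ℤ) × (Fin k → ℤ) × ℤ),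
    Real.sqrt ((p : ℝ) ^ a) ^ order (k + 1) ≤ C * (S.card : ℝ) ∧
    (∀ t ∈ S, 0 < t.1 ∧ Small k (p ^ a) t.1 t.2.1 t.2.2.1 t.2.2.2 ∧
      ¬ ((p : ℤ) ∣ t.2.2.2) ∧ GoodA k (p ^ a) t.1 t.2.1 t.2.2.1 t.2.2.2 ∧
      GoodB k (p ^ a) t.1 t.2.1 t.2.2.1 t.2.2.2) ∧
    Set.InjOn (fun t : ℕ × (Fin k → ℤ) × (Fin k → ℤ) × ℤ =>
      hC k (p ^ a) t.1 t.2.1 t.2.2.1 t.2.2.2) S

/-- W15a: dimensions at least eight. -/
def W15a : Prop := ∀ k : ℕ, 3 ≤ k → Many k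

/-- W15b: dimensions four and six. -/
def W15b : Prop := ∀ k : ℕ, k = 1 ∨ k = 2 → Many k

/-- W16: the fibres of the norm map are bounded. -/
def W16 : Prop := ∀ (k : ℕ) (f : ℤ[X]), f.natDegree = 2 * (2 * k + 2) →
  {h : ℂ[X] | h.Monic ∧ h ∣ f.map (Int.castRingHom ℂ)}.Finite ∧
  {h : ℂ[X] | h.Monic ∧ h ∣ f.map (Int.castRingHom ℂ)}.ncard ≤ 2 ^ (2 * (2 * k + 2))

/-- W17: the factors of the polynomials of Weil type. -/
def W17 : Prop := ∀ (m q : ℕ) (f : ℤ[X]), 1 ≤ m → 0 < q → f ∈ weilPolys q (2 * m) →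
  OfWeilType q m f → ∃ (ζ : ℂ) (a : Fin m → ℂ), Cond m q ζ a ∧
    f.map (Int.castRingHom ℂ) = wpol m q ζ a * (wpol m q ζ a).map (starRingEnd ℂ)

/-- W18: the number of the factors. -/
def W18 : Prop := ∀ m : ℕ, 2 ≤ m → ∃ C : ℝ, 0 < C ∧ ∀ q : ℕ, 0 < q →
  {t : ℂ × (Fin m → ℂ) | Cond m q t.1 t.2}.Finite ∧
  ({t : ℂ × (Fin m → ℂ) | Cond m q t.1 t.2}.ncard : ℝ) ≤ C * Real.sqrt q ^ order m

/-- W19: the number of the vectors of imaginary parts. -/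
def W19 : Prop := ∀ (r : ℕ) (B : ℝ), 1 ≤ r → 0 < B → ∃ C : ℝ, 0 < C ∧ ∀ Q : ℝ, 1 ≤ Q →
  {Y : Fin r → ℝ | (∃ j, Y j ≠ 0) ∧ (∀ i j, ∃ n : ℤ, Y i * Y j = n) ∧
    ∀ j, |Y j| ≤ B * Q ^ ((j : ℕ) + 1)}.Finite ∧
  ({Y : Fin r → ℝ | (∃ j, Y j ≠ 0) ∧ (∀ i j, ∃ n : ℤ, Y i * Y j = n) ∧
    ∀ j, |Y j| ≤ B * Q ^ ((j : ℕ) + 1)}.ncard : ℝ) ≤ C * Q ^ max (2 * r) (r * (r + 1) / 2)

/-- W20: the sum over the fields. -/
def W20 : Prop := ∃ C : ℝ, 0 < C ∧ ∀ X : ℕ, 1 ≤ X →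
  (∑ D ∈ Finset.Icc 1 X, ∑ y ∈ Finset.Icc 1 X with D * y ^ 2 ≤ X, (1 : ℝ) ≤ C * X) ∧
  (∑ D ∈ Finset.Icc 1 X, ∑ y ∈ Finset.Icc 1 X with D * y ^ 2 ≤ X, (Real.sqrt D)⁻¹ ≤
    C * (Real.sqrt X * (1 + Real.log X))) ∧
  ∀ r : ℕ, 2 ≤ r →
    ∑ D ∈ Finset.Icc 1 X, ∑ y ∈ Finset.Icc 1 X with D * y ^ 2 ≤ X, (Real.sqrt D)⁻¹ ^ r ≤
      C * Real.sqrt X

end Pool.Agent.H857.WT
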