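import Pool.Agent.H857.WT.Asm
import Pool.Agent.H857.WT.P.W1
import Pool.Agent.H857.WT.P.W2
import Pool.Agent.H857.WT.P.W3
import Pool.Agent.H857.WT.P.W4A
import Pool.Agent.H857.WT.P.W4B
import Pool.Agent.H857.WT.P.W4S
import Pool.Agent.H857.WT.P.W5
import Pool.Agent.H857.WT.P.W6
import Pool.Agent.H857.WT.P.W7
import Pool.Agent.H857.WT.P.W8
import Pool.Agent.H857.WT.P.W9
import Pool.Agent.H857.WT.P.W11
import Pool.Agent.H857.WT.P.W12
import Pool.Agent.H857.WT.P.W13
import Pool.Agent.H857.WT.P.W14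
import Pool.Agent.H857.WT.P.W15a
import Pool.Agent.H857.WT.P.W15b
import Pool.Agent.H857.WT.P.W16
import Pool.Agent.H857.WT.P.W17
import Pool.Agent.H857.WT.P.W18
import Pool.Agent.H857.WT.P.W19
import Pool.Agent.H857.WT.P.W20

/-!
# Abelian varieties of Weil type over finite fields: the statements together
-/

set_option autoImplicit false

namespace Pool.Agent.H857.WT

theorem all_w3 : W3 := H113.WTw3.w3 H122.WT1.w1 H721.WT.w2

theorem all_w8 : W8 := H348.WTw8.w8 H870.WT5.w5 H113.WTw6.w6 H628.WTw7.w7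

theorem all_w15a : W15a := H955.WT.w15a H337.WT.w4a H333.WT.w4b

theorem all_w15b : W15b := H969.WTw15b.w15b H115.WT.w4s H333.WT.w4b

theorem all_w18 : W18 := H271.WTw18.w18 (H295.WT19.w19 H120.WT20.w20)

end Pool.Agent.H857.WT
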