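import Pool.Agent.H857.EF.Defs4

/-!
# Abelian varieties of Weil type over finite fields: definitions
-/

set_option autoImplicit false

open CategoryTheory AlgebraicGeometry

namespace Pool.Agent.H857.WT

open Module Polynomial Pool.Agent.H914 Pool.Agent.H914.VarClass Pool.Agent.H914.VarClass.Obj
  Pool.Agent.W492.BB Pool.Agent.W484.CK Pool.Agent.Q70.CT Pool.Agent.H857.HK
  Pool.Agent.H857.EF

/-- The field `ℚ(√-D)`, as a subset of the field of complex numbers. -/
def quadField (D : ℕ) : Set ℂ := {z | ∃ x y : ℚ, z = x + y * (Real.sqrt D * Complex.I)}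

/-- `A` is of Weil type, where `f` is the characteristic polynomial of the Frobenius endomorphism `F`
of the abelian variety `A` of dimension `2 m` over the field with `q` elements: there is an
imaginary quadratic field `K` and a factorisation `f = h h̄` over `K` with coprime factors of degree
`2 m`, such that the constant term of `h` is the product of `q ^ m` and a root of unity. So `K` acts on
`A`, `H ^ 1 (A)` is a free module over `K ⊗ ℚ_ℓ` on which `F` has the characteristic polynomial
`h`, and the Weil classes, the elements of the highest exterior power of `H ^ 1 (A)` over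
`K ⊗ ℚ_ℓ`, are Tate classes of codimension `m` over a finite extension. -/
def OfWeilType (q m : ℕ) (f : ℤ[X]) : Prop :=
  ∃ (D : ℕ) (h : ℂ[X]), 0 < D ∧ h.Monic ∧ (∀ j, h.coeff j ∈ quadField D) ∧
    f.map (Int.castRingHom ℂ) = h * h.map (starRingEnd ℂ) ∧
    IsCoprime h (h.map (starRingEnd ℂ)) ∧
    ∃ N : ℕ, 0 < N ∧ h.coeff 0 ^ N = ((q : ℂ) ^ m) ^ N

/-- There are exotic Tate classes of codimension `m` on `A` itself, over the field with `q`
elements: for every finite dimensional complex vector space `V` with a diagonalizable
endomorphism `F` with the characteristic polynomial `f` (the space `H ^ 1 (A)`) there is an exotic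
Tate class in `⋀ ^ (2 m) V` over the field with `q` elements. -/
def ExoticInCodim (q m : ℕ) (f : ℤ[X]) : Prop :=
  ∀ (V : Type) [AddCommGroup V] [Module ℂ V] [FiniteDimensional ℂ V] (F : V →ₗ[ℂ] V),
    IsDiagonal f F → ∃ x : ExteriorAlgebra ℂ V, IsExoticClass q F m 1 x

/-- All Tate classes on the powers of `A`, over all extensions of the field with `Q` elements, are
polynomials in the Tate classes of codimensions one and `m` over the field with `Q` elements: for
every finite dimensional complex vector space `V`, spanned by eigenvectors of the endomorphism `F`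
with eigenvalues among the roots of `g`, every `x` in `⋀ ^ (2 i) V` with `F ^ s x = (Q ^ s) ^ i x`,
`s > 0`, lies in the algebra generated by the `y` in `⋀ ^ 2 V` with `F y = Q y` and the `y` in
`⋀ ^ (2 m) V` with `F y = Q ^ m y`. -/
def GeneratedInCodim (m Q : ℕ) (g : ℤ[X]) : Prop :=
  ∀ (V : Type) [AddCommGroup V] [Module ℂ V] [FiniteDimensional ℂ V] (F : V →ₗ[ℂ] V),
    Submodule.span ℂ {v : V | ∃ z : ℂ, aeval z g = 0 ∧ F v = z • v} = ⊤ →
    ∀ (i s : ℕ) (x : ExteriorAlgebra ℂ V), 0 < s → x ∈ ⋀[ℂ]^(2 * i) V →
      ExteriorAlgebra.map (F ^ s) x = ((Q : ℂ) ^ i) ^ s • x →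
      x ∈ Algebra.adjoin ℂ {y : ExteriorAlgebra ℂ V |
        (y ∈ ⋀[ℂ]^2 V ∧ ExteriorAlgebra.map F y = (Q : ℂ) • y) ∨
        (y ∈ ⋀[ℂ]^(2 * m) V ∧ ExteriorAlgebra.map F y = (Q : ℂ) ^ m • y)}

/-- The conjecture of Tate for the powers of `A` in all codimensions follows from the conjecture in
codimension `m`. For all classes `𝒱` of varieties over fields `k` (finite, in the intended use) and
their Chow groups `C` with rational coefficients, every Weil cohomology theory `H` with coefficients
in an algebraically closed field `K` of characteristic zero, all `s > 0` and all abelian varieties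
`B` in the class, over the field with `Q ^ s` elements, with Frobenius endomorphism `π`, which come,
up to isogeny, from abelian varieties over the field with `Q` elements whose Frobenius eigenvalues
are roots of `g`: if the Tate classes in `H ^ (2 m) (B)` are linear combinations of classes of cycles
of codimension `m`, then for every `c` the order of the pole of the zeta function of `B` at `s = c`
is the rank of the group of the cycles of codimension `c` on `B` modulo numerical equivalence. -/
def TateFromCodim (m Q : ℕ) (g : ℤ[X]) : Prop :=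
  ∀ (k : Type) [Field k] (𝒱 : VarClass k) (C : TheoryData.{0, 0, 0} 𝒱 ℚ) [IsChow C]
    (K : Type) [Field K] [IsAlgClosed K] [CharZero K] (H : WeilTheoryData.{0, 0, 0} C K)
    [IsWeil H] (s : ℕ) (B : 𝒱.Obj) (π : B ⟶ B), 0 < s → Pool.Agent.W484.CK.IsStandard H →
      Pool.Agent.W484.CK.IsAbelian H π Q s (fun _ : Unit => g) →
      (∀ y : H.A B, H.Deg (2 * m) y → H.up π y = ((Q ^ s : ℕ) : K) ^ m • y →
        InSpan H (fun y : H.A B => ∃ D : C.A B, C.Deg m D ∧ y = H.cl D) y) →
      ∀ c : ℕ, PoleFormula H π (Q ^ s) c

/-- The exponent of `√q` in the number of the abelian varieties of Weil type of dimension `2 m`: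
`5` for `m = 2`, `10` for `m = 3` and `m ^ 2` for `m ≥ 4`. -/
def order (m : ℕ) : ℕ := if m = 2 then 5 else if m = 3 then 10 else m ^ 2

end Pool.Agent.H857.WT
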